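import Pool.Agent.MP_d9582c_gt.H34.Stmts3
import Pool.Agent.MP_d9582c_gt.H66.Loc

/-!
The weighted estimate and the comparison estimate for the pair `(d, d*)`.
-/

open scoped InnerProductSpace ENNReal Topology Pointwise
open Set Filter ContinuousLinearMap

noncomputable section

namespace Pool.Agent.MP_d9582c_gt.H79

open H34

universe u v

section ops

variable {X A B A' B' : Type*} [NormedAddCommGroup X] [InnerProductSpace ℂ X]
  [NormedAddCommGroup A] [InnerProductSpace ℂ A] [NormedAddCommGroup B] [InnerProductSpace ℂ B]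
  [NormedAddCommGroup A'] [InnerProductSpace ℂ A'] [NormedAddCommGroup B'] [InnerProductSpace ℂ B']

/-- An operator into a Hilbert sum from its two components. -/
def pairL (f : X →L[ℂ] A) (g : X →L[ℂ] B) : X →L[ℂ] WithLp 2 (A × B) :=
  (WithLp.prodContinuousLinearEquiv 2 ℂ A B).symm.toContinuousLinearMap ∘L f.prod g

/-- The direct sum of two operators. -/
def diagL (f : A →L[ℂ] A') (g : B →L[ℂ] B') : WithLp 2 (A × B) →L[ℂ] WithLp 2 (A' × B') :=
  pairL (f ∘L WithLp.fstL 2 ℂ A B) (g ∘L WithLp.sndL 2 ℂ A B)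

lemma norm_le_add (z : WithLp 2 (A × B)) : ‖z‖ ≤ ‖z.fst‖ + ‖z.snd‖ := by
  refine abs_le_of_sq_le_sq' ?_ (by positivity) |>.2
  rw [WithLp.prod_norm_sq_eq_of_L2]
  nlinarith [norm_nonneg z.fst, norm_nonneg z.snd]

lemma norm_pairL_le (f : X →L[ℂ] A) (g : X →L[ℂ] B) (x : X) : ‖pairL f g x‖ ≤ ‖f x‖ + ‖g x‖ :=
  norm_le_add _

variable [CompleteSpace X] [CompleteSpace A] [CompleteSpace B] [CompleteSpace A'] [CompleteSpace B']

lemma adjoint_pairL (f : X →L[ℂ] A) (g : X →L[ℂ] B) (z : WithLp 2 (A × B)) :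
    adjoint (pairL f g) z = adjoint f z.fst + adjoint g z.snd := by
  refine ext_inner_left ℂ fun x => ?_
  rw [adjoint_inner_right, inner_add_right, adjoint_inner_right, adjoint_inner_right,
    WithLp.prod_inner_apply]
  rfl

lemma adjoint_diagL (f : A →L[ℂ] A') (g : B →L[ℂ] B') :
    adjoint (diagL f g) = diagL (adjoint f) (adjoint g) := by
  ext1 z
  refine ext_inner_left ℂ fun x => ?_
  rw [adjoint_inner_right, WithLp.prod_inner_apply, WithLp.prod_inner_apply]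
  exact congrArg₂ (· + ·) (adjoint_inner_right f _ _).symm (adjoint_inner_right g _ _).symm

/-- Duality for the adjoint of a relation. -/
lemma dual {D : Submodule ℂ (A × B)} {D' : Submodule ℂ (A' × B')} {T : A →L[ℂ] A'}
    {T' : B →L[ℂ] B'} {P : A →L[ℂ] B'} (h : ∀ u a, (u, a) ∈ D → (T u, T' a + P u) ∈ D')
    {v : B'} {b : A'} (hv : (v, b) ∈ D'.adjoint) :
    (adjoint T' v, adjoint T b + (-adjoint P) v) ∈ D.adjoint := by
  rw [Submodule.mem_adjoint_iff] at hv ⊢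
  intro u a hu
  have h1 := hv _ _ (h u a hu)
  simp only [inner_add_left, inner_add_right, neg_apply, inner_neg_right,
    adjoint_inner_right] at h1 ⊢
  linear_combination h1

end ops

variable {Q Q' : Type v} [Group Q] [Group Q'] {C : Cx.{u} Q} {C' : Cx.{u} Q'}

/-- Minus the adjoint of the operator one degree lower. -/
def dn (Y : ∀ p, C.H p →L[ℂ] C'.H (p + 1)) : ∀ p, C'.H p →L[ℂ] C.H (p - 1)
  | 0 => 0
  | p + 1 => -adjoint (Y p)

lemma co_map {T : ∀ p, C.H p →L[ℂ] C'.H p} {P : ∀ p, C.H p →L[ℂ] C'.H (p + 1)}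
    (h : ∀ p u a, (u, a) ∈ C.D p → (T p u, T (p + 1) a + P p u) ∈ C'.D p) (p : ℕ)
    {v : C'.H p} {b : C'.H (p - 1)} (hv : (v, b) ∈ C'.co p) :
    (adjoint (T p) v, adjoint (T (p - 1)) b + dn P p v) ∈ C.co p := by
  cases p with
  | zero =>
    have h1 : b = 0 := hv.2
    refine ⟨trivial, ?_⟩
    show adjoint (T (0 - 1)) b + 0 = 0
    rw [h1, map_zero, add_zero]
  | succ p => exact dual (h p) hv

lemma co_closed (C : Cx.{u} Q) (p : ℕ) : IsClosed (C.co p : Set (C.H p × C.H (p - 1))) := by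
  cases p with
  | zero =>
    have : (C.co 0 : Set (C.H 0 × C.H (0 - 1))) = {z | z.2 = 0} := by
      ext z
      exact ⟨fun h => h.2, fun h => ⟨trivial, h⟩⟩
    rw [this]
    exact isClosed_eq continuous_snd continuous_const
  | succ p =>
    have : ((C.D p).adjoint : Set (C.H (p + 1) × C.H p)) =
        ⋂ z ∈ C.D p, {x : C.H (p + 1) × C.H p | ⟪z.2, x.1⟫_ℂ - ⟪z.1, x.2⟫_ℂ = 0} := by
      ext x
      rw [mem_iInter₂]
      exact (Submodule.mem_adjoint_iff _ x).trans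
        ⟨fun h z hz => h z.1 z.2 hz, fun h a b hz => h (a, b) hz⟩
    show IsClosed ((C.D p).adjoint : Set (C.H (p + 1) × C.H p))
    rw [this]
    exact isClosed_biInter fun z _ => isClosed_eq (by fun_prop) continuous_const

lemma lap_closed (C : Cx.{u} Q) (p : ℕ) :
    IsClosed (C.lap p : Set (C.H p × WithLp 2 (C.H (p + 1) × C.H (p - 1)))) :=
  ((C.closed p).preimage (f := fun z : C.H p × WithLp 2 (C.H (p + 1) × C.H (p - 1)) =>
    (z.1, z.2.fst)) (by fun_prop)).inter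
    ((co_closed C p).preimage (f := fun z : C.H p × WithLp 2 (C.H (p + 1) × C.H (p - 1)) =>
      (z.1, z.2.snd)) (by fun_prop))

/-- The action as a continuous linear map. -/
def rep (C : Cx.{u} Q) (q : Q) (p : ℕ) : C.H p →L[ℂ] C.H p :=
  (C.U p q).toContinuousLinearEquiv.toContinuousLinearMap

lemma adjoint_rep (C : Cx.{u} Q) (q : Q) (p : ℕ) : adjoint (rep C q p) = rep C q⁻¹ p := by
  ext1 u
  refine ext_inner_left ℂ fun x => ?_
  rw [adjoint_inner_right]
  exact inner_rep _ _ _ _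

lemma dn_zero (p : ℕ) : dn (C := C) (C' := C') (fun _ => 0) p = 0 := by
  cases p with
  | zero => rfl
  | succ p => simp [dn]

lemma lap_rep (C : Cx.{u} Q) (q : Q) (p : ℕ) (u : C.H p) (a) (h : (u, a) ∈ C.lap p) :
    (rep C q p u, diagL (rep C q (p + 1)) (rep C q (p - 1)) a) ∈ C.lap p := by
  refine ⟨C.inv p q _ _ h.1, ?_⟩
  have h1 := co_map (T := rep C q⁻¹) (P := fun _ => 0)
    (fun p u a hu => by rw [zero_apply, add_zero]; exact C.inv p q⁻¹ _ _ hu) p h.2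
  rw [dn_zero, zero_apply, add_zero, adjoint_rep, adjoint_rep, inv_inv] at h1
  exact h1

lemma equi_heat (C : Cx.{u} Q) (p : ℕ) (t : ℝ) : Equi (C.U p) (C.U p) (heat (C.lap p) t) := by
  refine Equi.cfc (fun q u => ?_) _
  refine resolv_comm (lap_closed C p) (V := rep C q p) (lap_rep C q p) (fun u a h => ?_) u
  rw [adjoint_diagL, adjoint_rep, adjoint_rep, adjoint_rep]
  exact lap_rep C q⁻¹ p u a h

lemma trH_eq (C : Cx.{u} Q) (p : ℕ) {ι : Type*} {v : ι → C.H p} (hv : IsFrame (C.U p) v) {t : ℝ}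
    (ht : 0 < t) : C.trH p t = hs v (heat (C.lap p) (t / 2)) := by
  refine vnTrace_eq hv (equi_heat C p _) fun u => ?_
  conv_lhs => rw [← add_halves t, heat_add _ (half_pos ht) (half_pos ht)]
  rw [@norm_sq_eq_re_inner ℂ]
  exact congrArg Complex.re (inner_cfc _ _ u _).symm

variable {G : Type v} [Group G] {π : G → Q} {π' : G → Q'} {S : Finset G} {K : ℕ → Type u}
  [∀ p, NormedAddCommGroup (K p)] [∀ p, InnerProductSpace ℂ (K p)] [∀ p, CompleteSpace (K p)]
  {c : ℝ}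

lemma c_nonneg (L : C.Loc π S K c) : 0 ≤ c := by
  simpa using (norm_nonneg _).trans (L.Y_le 1 zero_le_one 0 0)

lemma norm_Ytot (L : C.Loc π S K c) {a : ℝ} (ha : 0 ≤ a) (m p : ℕ) :
    ‖pairL (L.Y a m p) (dn (L.Y a m) p)‖ ≤ 2 * c * a := by
  have hc := c_nonneg L
  refine opNorm_le_bound _ (by positivity) fun x => (norm_pairL_le _ _ x).trans ?_
  have h1 := (L.Y a m p).le_of_opNorm_le (L.Y_le a ha m p) x
  have h2 : ‖dn (L.Y a m) p‖ ≤ c * a := by
    cases p with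
    | zero => exact norm_zero.trans_le (by positivity)
    | succ p =>
      show ‖-adjoint (L.Y a m p)‖ ≤ _
      rw [norm_neg, LinearIsometryEquiv.norm_map]
      exact L.Y_le a ha m p
  have h3 := (dn (L.Y a m) p).le_of_opNorm_le h2 x
  linarith

lemma sa_Wtot (L : C.Loc π S K c) (a : ℝ) (m p : ℕ) :
    IsSelfAdjoint (diagL (L.W a m (p + 1)) (L.W a m (p - 1))) := by
  rw [isSelfAdjoint_iff', adjoint_diagL, (L.sa a m _).adjoint_eq, (L.sa a m _).adjoint_eq]

lemma graph_tot (L : C.Loc π S K c) (a : ℝ) (m p : ℕ) (u : C.H p) (b) (h : (u, b) ∈ C.lap p) :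
    (L.W a m p (L.W a m p u), diagL (L.W a m (p + 1)) (L.W a m (p - 1))
      (diagL (L.W a m (p + 1)) (L.W a m (p - 1)) b) + diagL (L.W a m (p + 1)) (L.W a m (p - 1))
        (pairL (L.Y a m p) (dn (L.Y a m) p) (L.W a m p u))) ∈ C.lap p := by
  refine ⟨L.graph a m p _ _ h.1, ?_⟩
  have h1 := co_map (T := fun p => L.W a m p ∘L L.W a m p)
    (P := fun p => L.W a m (p + 1) ∘L L.Y a m p ∘L L.W a m p) (L.graph a m) p h.2
  have h2 : dn (fun p => L.W a m (p + 1) ∘L L.Y a m p ∘L L.W a m p) p u =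
      L.W a m (p - 1) (dn (L.Y a m) p (L.W a m p u)) := by
    cases p with
    | zero => exact (map_zero _).symm
    | succ p =>
      show (-adjoint (L.W a m (p + 1) ∘L L.Y a m p ∘L L.W a m p)) u =
        L.W a m p ((-adjoint (L.Y a m p)) (L.W a m (p + 1) u))
      rw [adjoint_comp, adjoint_comp, (L.sa a m _).adjoint_eq, (L.sa a m _).adjoint_eq, neg_apply,
        neg_apply, map_neg]
      rfl
  rw [h2, adjoint_comp, adjoint_comp, (L.sa a m _).adjoint_eq, (L.sa a m _).adjoint_eq] at h1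
  exact h1

lemma davies_lap (L : C.Loc π S K c) {a : ℝ} (ha : 0 ≤ a) (m p : ℕ) {t : ℝ} (ht : 0 < t)
    (u : C.H p) : ‖L.W a m p (heat (C.lap p) t u)‖ ^ 2 ≤
      Real.exp ((2 * c * a) ^ 2 * t) * ‖L.W a m p u‖ ^ 2 :=
  H66.davies _ _ _ (lap_closed C p) _ _ _ _ (L.sa a m p) (sa_Wtot L a m p) (norm_Ytot L ha m p)
    (graph_tot L a m p) t ht u

lemma compare_lap (L₁ : C.Loc π S K c) {a : ℝ} (ha : 0 ≤ a) (R p : ℕ) {β : ℝ} (hβ : 0 ≤ β)
    {L : ∀ p, C'.H p →L[ℂ] C.H p} {B : ∀ p, C'.H p →L[ℂ] C.H (p + 1)}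
    {B' : ∀ p, C.H p →L[ℂ] C'.H (p + 1)}
    (h1 : ∀ p v a, (v, a) ∈ C'.D p → (L p v, L (p + 1) a + B p v) ∈ C.D p)
    (h2 : ∀ p u a, (u, a) ∈ C.D p → (adjoint (L p) u, adjoint (L (p + 1)) a + B' p u) ∈ C'.D p)
    (h3 : ∀ p, (∀ u, ‖adjoint (B p) u‖ ≤ β * ‖L₁.W a R (p + 1) u‖) ∧
      ∀ u, ‖B' p u‖ ≤ β * ‖L₁.W a R p u‖) {t : ℝ} (ht : 0 < t) (u : C.H p) :
    ‖heat (C'.lap p) t (adjoint (L p) u) - adjoint (L p) (heat (C.lap p) t u)‖ ^ 2 ≤
      (2 * β) ^ 2 * Real.exp (((2 * c * a) ^ 2 + 1) * t) * ‖L₁.W a R p u‖ ^ 2 := by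
  refine H66.compare _ _ _ _ _ _ (lap_closed C p) (lap_closed C' p) _ _ _ _ (L₁.sa a R p)
    (sa_Wtot L₁ a R p) (norm_Ytot L₁ ha R p) (graph_tot L₁ a R p) (L p)
    (diagL (L (p + 1)) (L (p - 1))) (pairL (B p) (dn B' p)) (pairL (B' p) (dn B p)) (2 * β)
    (fun v b h => ⟨h1 p _ _ h.1, ?_⟩) (fun v b h => ?_) (fun z => ?_) (fun x => ?_) t ht u
  · have h4 := co_map (T := fun p => adjoint (L p)) h2 p h.2
    rw [adjoint_adjoint, adjoint_adjoint] at h4
    exact h4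
  · rw [adjoint_diagL]
    exact ⟨h2 p _ _ h.1, co_map h1 p h.2⟩
  · rw [adjoint_pairL]
    refine (norm_add_le _ _).trans ?_
    have h4 := (h3 p).1 z.fst
    have h5 : ‖adjoint (dn B' p) z.snd‖ ≤ β * ‖L₁.W a R (p - 1) z.snd‖ := by
      cases p with
      | zero =>
        show ‖adjoint (0 : C'.H 0 →L[ℂ] C.H (0 - 1)) z.snd‖ ≤ _
        rw [map_zero, zero_apply, norm_zero]
        positivity
      | succ p =>
        show ‖adjoint (-adjoint (B' p)) z.snd‖ ≤ _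
        rw [map_neg, adjoint_adjoint, neg_apply, norm_neg]
        exact (h3 p).2 _
    have h6 : ‖L₁.W a R (p + 1) z.fst‖ ≤ ‖diagL (L₁.W a R (p + 1)) (L₁.W a R (p - 1)) z‖ :=
      WithLp.norm_fst_le _ (diagL (L₁.W a R (p + 1)) (L₁.W a R (p - 1)) z)
    have h7 : ‖L₁.W a R (p - 1) z.snd‖ ≤ ‖diagL (L₁.W a R (p + 1)) (L₁.W a R (p - 1)) z‖ :=
      WithLp.norm_snd_le _ (diagL (L₁.W a R (p + 1)) (L₁.W a R (p - 1)) z)
    nlinarith [mul_le_mul_of_nonneg_left h6 hβ, mul_le_mul_of_nonneg_left h7 hβ]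
  · refine (norm_pairL_le _ _ x).trans ?_
    have h4 := (h3 p).2 x
    have h5 : ‖dn B p x‖ ≤ β * ‖L₁.W a R p x‖ := by
      cases p with
      | zero => exact norm_zero.trans_le (by positivity)
      | succ p =>
        show ‖(-adjoint (B p)) x‖ ≤ _
        rw [neg_apply, norm_neg]
        exact (h3 p).1 _
    linarith

end Pool.Agent.MP_d9582c_gt.H79
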