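import Pool.Agent.MP_d9582c_gt.H79.CloseA
import Pool.Agent.MP_d9582c_gt.H14.Cmp

/-!
Heat traces of complexes that agree on large balls are close.
-/

open scoped InnerProductSpace ENNReal Topology Pointwise
open Set Filter ContinuousLinearMap

noncomputable section

namespace Pool.Agent.MP_d9582c_gt.H79

open H34

universe u v

lemma far_sum {Q : Type*} (f : Q → ℝ) (A : ℕ → Finset Q) {N D ρ : ℝ} (hN : 1 ≤ N) (hD : 0 ≤ D)
    (hρ : 0 ≤ ρ) (hh : N * ρ ≤ 1 / 2) (hA : ∀ m, ((A m).card : ℝ) ≤ N ^ m)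
    (h : ∀ m q, q ∉ A m → f q ≤ D * ρ ^ m) (r : ℕ) :
    ∑' q : ↥(A r : Set Q)ᶜ, ENNReal.ofReal (f q) ≤ ENNReal.ofReal (2 * D * N * (N * ρ) ^ r) := by
  classical
  have h1 : ∀ q : ↥(A r : Set Q)ᶜ, ENNReal.ofReal (f q) ≤
      ∑' j, if q.1 ∈ A (r + j + 1) then ENNReal.ofReal (D * ρ ^ (r + j)) else 0 := by
    intro q
    by_cases hq : ∃ j, q.1 ∈ A (r + j + 1)
    · refine le_trans ?_ (ENNReal.le_tsum (Nat.find hq))
      rw [if_pos (Nat.find_spec hq)]
      refine ENNReal.ofReal_le_ofReal (h _ _ ?_)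
      rcases hj : Nat.find hq with _ | j
      · exact q.2
      · exact Nat.find_min hq (m := j) (by omega)
    · have h2 : Tendsto (fun j => D * ρ ^ (r + 1) * ρ ^ j) atTop (𝓝 (D * ρ ^ (r + 1) * 0)) :=
        (tendsto_pow_atTop_nhds_zero_of_lt_one hρ (by nlinarith)).const_mul _
      have h3 : f q ≤ D * ρ ^ (r + 1) * 0 := ge_of_tendsto' h2 fun j =>
        (h _ _ fun h4 => hq ⟨j, h4⟩).trans_eq (by ring)
      rw [ENNReal.ofReal_of_nonpos (by simpa using h3)]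
      exact zero_le
  refine (ENNReal.tsum_le_tsum h1).trans ?_
  rw [ENNReal.tsum_comm]
  have h2 : ∀ j, (∑' q : ↥(A r : Set Q)ᶜ,
      if q.1 ∈ A (r + j + 1) then ENNReal.ofReal (D * ρ ^ (r + j)) else 0) ≤
      ENNReal.ofReal (D * N * (N * ρ) ^ r * (1 / 2) ^ j) := by
    intro j
    refine (ENNReal.tsum_comp_le_tsum_of_injective Subtype.val_injective
      fun q => if q ∈ A (r + j + 1) then ENNReal.ofReal (D * ρ ^ (r + j)) else 0).trans ?_
    rw [tsum_eq_sum (s := A (r + j + 1)) fun q hq => if_neg hq,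
      Finset.sum_congr rfl fun q hq => if_pos hq, Finset.sum_const, nsmul_eq_mul,
      ← ENNReal.ofReal_natCast, ← ENNReal.ofReal_mul (Nat.cast_nonneg _)]
    refine ENNReal.ofReal_le_ofReal ?_
    calc ((A (r + j + 1)).card : ℝ) * (D * ρ ^ (r + j)) ≤ N ^ (r + j + 1) * (D * ρ ^ (r + j)) :=
          mul_le_mul_of_nonneg_right (hA _) (by positivity)
      _ = D * N * (N * ρ) ^ r * (N * ρ) ^ j := by ring
      _ ≤ _ := by gcongr
  refine (ENNReal.tsum_le_tsum h2).trans ?_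
  rw [← ENNReal.ofReal_tsum_of_nonneg (fun j => by positivity)
    (summable_geometric_two.mul_left _), tsum_mul_left, tsum_geometric_two]
  exact ENNReal.ofReal_le_ofReal (le_of_eq (by ring))

variable {Q Q' : Type v} [Group Q] [Group Q'] {C : Cx.{u} Q} {C' : Cx.{u} Q'}
  {G : Type v} [Group G] {π : G → Q} {π' : G → Q'} {S : Finset G} {K : ℕ → Type u}
  [∀ p, NormedAddCommGroup (K p)] [∀ p, InnerProductSpace ℂ (K p)] [∀ p, CompleteSpace (K p)]
  {c : ℝ}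

lemma norm_loc_le (L : C.Loc π S K c) (p : ℕ) (q : Q) (x : C.H p) :
    ‖L.Φ p (C.U p q⁻¹ x)‖ ≤ ‖x‖ := by
  have h := (ENNReal.le_tsum q).trans_eq (L.parseval p x)
  rw [enorm_sq_eq, enorm_sq_eq, ENNReal.ofReal_le_ofReal_iff (sq_nonneg _)] at h
  exact (abs_le_of_sq_le_sq' h (norm_nonneg _)).2

lemma heat_heat (C : Cx.{u} Q) (p : ℕ) {t : ℝ} (ht : 0 < t) (u : C.H p) :
    heat (C.lap p) (t / 4) (heat (C.lap p) (t / 4) u) = heat (C.lap p) (t / 2) u := by
  rw [← heat_add _ (by positivity) (by positivity)]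
  congr 2
  ring

lemma block_apply (L : C.Loc π S K c) (p : ℕ) {t : ℝ} (ht : 0 < t) (q : Q) (k : K p) :
    block (C.U p) (L.Φ p) (heat (C.lap p) (t / 4)) q k =
      L.Φ p (C.U p q⁻¹ (heat (C.lap p) (t / 2) (adjoint (L.Φ p) k))) := by
  rw [← heat_heat C p ht]
  rfl

lemma le_of_sq {x y z w : ℝ} (hy : 0 ≤ y) (hw : 0 ≤ w) (h : x ^ 2 ≤ y ^ 2 * Real.exp z * w ^ 2) :
    x ≤ y * Real.exp (z / 2) * w := by
  refine (abs_le_of_sq_le_sq' (h.trans_eq ?_) (by positivity)).2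
  rw [mul_pow, mul_pow, ← Real.exp_nat_mul]
  congr 3
  push_cast
  ring

lemma far_block (L : C.Loc π S K c) {a : ℝ} (ha : 0 ≤ a) (m p : ℕ) {t : ℝ} (ht : 0 < t) {q : Q}
    (hq : q ∉ π '' (S : Set G) ^ m) :
    ‖block (C.U p) (L.Φ p) (heat (C.lap p) (t / 4)) q‖ ≤
      c ^ 2 * Real.exp (2 * a) * Real.exp ((2 * c * a) ^ 2 * t / 4) * Real.exp (-a) ^ m := by
  have hc := c_nonneg L
  refine opNorm_le_bound _ (by positivity) fun k => ?_
  rw [block_apply L p ht]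
  refine (L.far a ha m p q _ hq).trans ?_
  have h1 := le_of_sq zero_le_one (norm_nonneg _)
    ((davies_lap L ha m p (half_pos ht) (adjoint (L.Φ p) k)).trans_eq (by rw [one_pow, one_mul]))
  have h2 := L.near a ha m p k
  calc _ ≤ c * Real.exp (a * (1 - m)) * (1 * Real.exp ((2 * c * a) ^ 2 * (t / 2) / 2) *
        (c * Real.exp a * ‖k‖)) := by
        gcongr
        exact h1.trans (by gcongr)
    _ = _ := by
        rw [← Real.exp_nat_mul, show a * (1 - m) = a + m * -a by ring, Real.exp_add, two_mul a,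
          Real.exp_add, show (2 * c * a) ^ 2 * (t / 2) / 2 = (2 * c * a) ^ 2 * t / 4 by ring]
        ring

lemma near_block {L₁ : C.Loc π S K c} {L₂ : C'.Loc π' S K c} {r : ℕ}
    (h : Cx.Transfer L₁ L₂ (r + 1)) {a : ℝ} (ha : 0 ≤ a) (p : ℕ) {t : ℝ} (ht : 0 < t) {γ : G}
    (hγ : γ ∈ (S : Set G) ^ r) :
    ‖block (C.U p) (L₁.Φ p) (heat (C.lap p) (t / 4)) (π γ) -
      block (C'.U p) (L₂.Φ p) (heat (C'.lap p) (t / 4)) (π' γ)‖ ≤
      2 * c ^ 2 * S.card * Real.exp (3 * a) * Real.exp (((2 * c * a) ^ 2 + 1) * t / 4) *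
        (S.card * Real.exp (-a)) ^ r := by
  have hc := c_nonneg L₁
  obtain ⟨L, B, B', h1, h2, h3, h4, h5⟩ := h
  refine opNorm_le_bound _ (by positivity) fun k => ?_
  have h6 : adjoint (L₂.Φ p) k = adjoint (L p) (adjoint (L₁.Φ p) k) := by
    rw [show L₂.Φ p = L₁.Φ p ∘L L p from ContinuousLinearMap.ext (h4 p), adjoint_comp]
    rfl
  rw [sub_apply, block_apply L₁ p ht, block_apply L₂ p ht, ← h5 p γ hγ, h6, ← map_sub, ← map_sub]
  refine (norm_loc_le L₂ p _ _).trans ?_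
  rw [norm_sub_rev]
  have h7 := le_of_sq (by positivity) (norm_nonneg _)
    (compare_lap L₁ ha (r + 1) p (by positivity) h1 h2 (h3 a ha) (half_pos ht)
      (adjoint (L₁.Φ p) k))
  refine h7.trans ?_
  have h8 := L₁.near a ha (r + 1) p k
  refine (mul_le_mul_of_nonneg_left h8 (by positivity)).trans_eq ?_
  rw [mul_pow (S.card : ℝ), ← Real.exp_nat_mul,
    show a * (3 - ((r + 1 : ℕ) : ℝ)) = 2 * a + r * -a by push_cast; ring, Real.exp_add,
    show 3 * a = 2 * a + a by ring, Real.exp_add,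
    show ((2 * c * a) ^ 2 + 1) * (t / 2) / 2 = ((2 * c * a) ^ 2 + 1) * t / 4 by ring]
  ring

/-- The common bound for the three error terms. -/
def err (c N a t : ℝ) (r : ℕ) : ℝ :=
  2 * c ^ 2 * N * Real.exp (3 * a) * Real.exp (((2 * c * a) ^ 2 + 1) * t / 4) *
    (N ^ 2 * Real.exp (-a)) ^ r

open Classical in
lemma far_le (L : C.Loc π S K c) (hS : 1 ∈ S) {a : ℝ} (ha : 0 ≤ a)
    (hh : S.card * Real.exp (-a) ≤ 1 / 2) (r p : ℕ) {t : ℝ} (ht : 0 < t) :
    ∑' q : ↥(π '' (S ^ r : Finset G))ᶜ, ‖block (C.U p) (L.Φ p) (heat (C.lap p) (t / 4)) q‖ₑ ≤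
      ENNReal.ofReal (err c S.card a t r) := by
  have hN : (1 : ℝ) ≤ S.card := by exact_mod_cast Finset.card_pos.2 ⟨1, hS⟩
  have h1 := far_sum (fun q => ‖block (C.U p) (L.Φ p) (heat (C.lap p) (t / 4)) q‖)
    (fun m => (S ^ m).image π) hN (by positivity) (Real.exp_pos (-a)).le hh
    (fun m => by exact_mod_cast Finset.card_image_le.trans Finset.card_pow_le)
    (fun m q hq => far_block L ha m p ht (by
      rwa [← Finset.mem_coe, Finset.coe_image, Finset.coe_pow] at hq)) r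
  rw [Finset.coe_image] at h1
  simp only [ofReal_norm] at h1
  refine h1.trans (ENNReal.ofReal_le_ofReal ?_)
  unfold err
  calc _ = 2 * c ^ 2 * S.card * Real.exp (2 * a) * Real.exp ((2 * c * a) ^ 2 * t / 4) *
        (S.card * Real.exp (-a)) ^ r := by ring
    _ ≤ _ := by
      gcongr
      · norm_num
      · norm_num
      · nlinarith

lemma est {L₁ : C.Loc π S K c} {L₂ : C'.Loc π' S K c} (hS : 1 ∈ S) {r : ℕ}
    (h : Cx.Transfer L₁ L₂ (r + 1)) (i₁ : InjOn π ((S : Set G) ^ r))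
    (i₂ : InjOn π' ((S : Set G) ^ r)) {a : ℝ} (ha : 0 ≤ a) (hh : S.card * Real.exp (-a) ≤ 1 / 2)
    (p : ℕ) {t T : ℝ} (ht : 0 < t) (hT : 0 ≤ T) (b₁ : C.trH p (t / 2) ≤ ENNReal.ofReal T)
    (b₂ : C'.trH p (t / 2) ≤ ENNReal.ofReal T) :
    |(C'.trH p t).toReal - (C.trH p t).toReal| ≤ 4 * T * err c S.card a t r := by
  classical
  obtain ⟨w, e, -⟩ := exists_hilbertBasis ℂ (K p)
  have f₁ := isFrame_of_local e (L₁.parseval p)
  have f₂ := isFrame_of_local e (L₂.parseval p)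
  have ht4 : 0 ≤ t / 4 := by positivity
  rw [trH_eq C p f₁ (half_pos ht), show t / 2 / 2 = t / 4 by ring] at b₁
  rw [trH_eq C' p f₂ (half_pos ht), show t / 2 / 2 = t / 4 by ring] at b₂
  have key := H14.cmp Q Q' G (C.H p) (C'.H p) (K p) w (C.U p) (C'.U p) (L₁.Φ p) (L₂.Φ p) e
    (heat (C.lap p) (t / 4)) (heat (C'.lap p) (t / 4)) (S ^ r) π π' T (err c S.card a t r) hT
    (by unfold err; positivity) (L₁.parseval p) (L₂.parseval p) (heat_sa _ _) (heat_sa _ _)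
    (equi_heat C p _) (equi_heat C' p _) (norm_heat_le (lap_closed C p) ht4)
    (norm_heat_le (lap_closed C' p) ht4) b₁ b₂ (by rwa [Finset.coe_pow]) (by rwa [Finset.coe_pow])
    ?_ (far_le L₁ hS ha hh r p ht) (far_le L₂ hS ha hh r p ht)
  · rw [ContinuousLinearMap.ext (f := heat (C.lap p) (t / 4) ∘L heat (C.lap p) (t / 4))
      (heat_heat C p ht),
      ContinuousLinearMap.ext (f := heat (C'.lap p) (t / 4) ∘L heat (C'.lap p) (t / 4))
      (heat_heat C' p ht), ← trH_eq C p f₁ ht, ← trH_eq C' p f₂ ht, abs_sub_comm] at key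
    exact key
  · refine (Finset.sum_le_card_nsmul _ _ _ fun γ hγ => near_block h ha p ht
      (by rwa [← Finset.coe_pow])).trans ?_
    have h1 : (((S ^ r).card : ℕ) : ℝ) ≤ (S.card : ℝ) ^ r := by
      exact_mod_cast Finset.card_pow_le
    rw [nsmul_eq_mul]
    refine (mul_le_mul_of_nonneg_right h1 (by positivity)).trans_eq ?_
    unfold err
    ring

lemma sq_exp {N : ℝ} (hN : 1 ≤ N) (b : ℝ) :
    N ^ 2 * Real.exp (-(2 * Real.log N + 1 + b)) = Real.exp (-(1 + b)) := by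
  rw [show N ^ 2 = Real.exp (2 * Real.log N) by
    rw [two_mul, Real.exp_add, Real.exp_log (by linarith), sq], ← Real.exp_add]
  congr 1
  ring

lemma half_le {N b : ℝ} (hN : 1 ≤ N) (hb : 0 ≤ b) :
    N * Real.exp (-(2 * Real.log N + 1 + b)) ≤ 1 / 2 := by
  have h1 := sq_exp hN b
  have h2 : Real.exp (-(1 + b)) ≤ 1 / 2 := by
    rw [Real.exp_neg, one_div]
    exact inv_anti₀ two_pos (by linarith [Real.add_one_le_exp (1 + b)])
  have h3 := Real.exp_pos (-(2 * Real.log N + 1 + b))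
  nlinarith [mul_le_mul_of_nonneg_right hN (mul_pos (by linarith : 0 < N) h3).le]

lemma small (c c' : ℝ) {N : ℝ} (hN : 1 ≤ N) (k : ℕ) : ∃ B : ℝ, ∀ t ∈ Ioc (0 : ℝ) 1,
    4 * (|c'| * (1 + (t / 2)⁻¹) ^ k) * err c N (2 * Real.log N + 1 + √t⁻¹) t 4 ≤ B * t := by
  set a := 2 * Real.log N + 1 with ha
  have ha0 : 0 ≤ a := by linarith [Real.log_nonneg hN]
  refine ⟨4 * (|c'| * 3 ^ k) * (2 * c ^ 2 * N * Real.exp (3 * a) *
    Real.exp (((2 * c * (a + 1)) ^ 2 + 1) / 4)) * (2 * k + 2).factorial, fun t ht => ?_⟩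
  have ht0 := ht.1
  have h1 : 1 ≤ t⁻¹ := (one_le_inv₀ ht0).2 ht.2
  set b := √t⁻¹ with hb
  have hb1 : 1 ≤ b := Real.one_le_sqrt.2 h1
  have hb2 : b ^ 2 = t⁻¹ := Real.sq_sqrt (by positivity)
  have hb3 : b ^ 2 * t = 1 := by rw [hb2, inv_mul_cancel₀ ht0.ne']
  have e1 : (1 + (t / 2)⁻¹) ^ k ≤ 3 ^ k * b ^ (2 * k) := by
    rw [pow_mul, ← mul_pow, hb2, inv_div, div_eq_mul_inv]
    gcongr
    linarith
  have e2 : ((2 * c * (a + b)) ^ 2 + 1) * t / 4 ≤ ((2 * c * (a + 1)) ^ 2 + 1) / 4 := by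
    have h2 : (a + b) ^ 2 ≤ ((a + 1) * b) ^ 2 := by
      gcongr
      nlinarith
    have h3 : (2 * c) ^ 2 * (a + b) ^ 2 * t ≤ (2 * c) ^ 2 * ((a + 1) * b) ^ 2 * t := by gcongr
    have h4 : (2 * c) ^ 2 * ((a + 1) * b) ^ 2 * t = (2 * c * (a + 1)) ^ 2 := by
      rw [mul_pow (a + 1), mul_assoc, mul_assoc, hb3]
      ring
    nlinarith [ht.2]
  have e3 : Real.exp (3 * (a + b)) * Real.exp (-(1 + b)) ^ 4 ≤ Real.exp (3 * a) * Real.exp (-b) := by
    rw [← Real.exp_nat_mul, ← Real.exp_add, ← Real.exp_add, Real.exp_le_exp]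
    push_cast
    linarith
  have e4 : b ^ (2 * k) * Real.exp (-b) ≤ (2 * k + 2).factorial * t := by
    have h2 := Real.pow_div_factorial_le_exp b (by linarith) (2 * k + 2)
    rw [div_le_iff₀ (by positivity)] at h2
    calc b ^ (2 * k) * Real.exp (-b) = b ^ (2 * k + 2) * Real.exp (-b) * t := by
          rw [pow_add, mul_right_comm, mul_assoc _ (b ^ 2), hb3, mul_one]
      _ ≤ Real.exp b * (2 * k + 2).factorial * Real.exp (-b) * t := by gcongr
      _ = _ := by rw [mul_right_comm (Real.exp b), ← Real.exp_add, add_neg_cancel, Real.exp_zero,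
          one_mul]
  unfold err
  rw [sq_exp hN]
  calc _ = 4 * (|c'| * (1 + (t / 2)⁻¹) ^ k) * (2 * c ^ 2 * N *
        (Real.exp (3 * (a + b)) * Real.exp (-(1 + b)) ^ 4) *
          Real.exp (((2 * c * (a + b)) ^ 2 + 1) * t / 4)) := by ring
    _ ≤ 4 * (|c'| * (3 ^ k * b ^ (2 * k))) * (2 * c ^ 2 * N * (Real.exp (3 * a) * Real.exp (-b)) *
          Real.exp (((2 * c * (a + 1)) ^ 2 + 1) / 4)) := by gcongr
    _ = 4 * (|c'| * 3 ^ k) * (2 * c ^ 2 * N * Real.exp (3 * a) *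
          Real.exp (((2 * c * (a + 1)) ^ 2 + 1) / 4)) * (b ^ (2 * k) * Real.exp (-b)) := by ring
    _ ≤ _ := by
      rw [mul_assoc _ _ t]
      gcongr

theorem close : CloseStmt.{u, v} := by
  intro G _ S K _ _ _ c c' k Q₀ _ Q _ C₀ C π₀ π L₀ L hS hinj hR hb p
  have hN : (1 : ℝ) ≤ S.card := by exact_mod_cast Finset.card_pos.2 ⟨1, hS⟩
  have key : ∀ r : ℕ, 3 ≤ r → ∀ᶠ i in atTop, ∀ t > 0, ∀ b ≥ (0 : ℝ),
      |((C i).trH p t).toReal - (C₀.trH p t).toReal| ≤ 4 * (|c'| * (1 + (t / 2)⁻¹) ^ k) *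
        err c S.card (2 * Real.log S.card + 1 + b) t r := by
    intro r hr
    filter_upwards [hR r hr, hR (r + 1) (by omega)] with i h1 h2 t ht b hb0
    have h3 : ENNReal.ofReal (c' * (1 + (t / 2)⁻¹) ^ k) ≤
        ENNReal.ofReal (|c'| * (1 + (t / 2)⁻¹) ^ k) :=
      ENNReal.ofReal_le_ofReal (mul_le_mul_of_nonneg_right (le_abs_self _) (by positivity))
    exact est hS h2.2 hinj.injOn h1.1 (by linarith [Real.log_nonneg hN]) (half_le hN hb0) p ht
      (by positivity) ((hb p _ (half_pos ht)).1.trans h3) (((hb p _ (half_pos ht)).2 i).trans h3)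
  refine ⟨?_, fun t ht => ?_⟩
  · obtain ⟨B, hB⟩ := small c c' hN k
    refine ⟨B, ?_⟩
    filter_upwards [key 4 (by norm_num)] with i hi t ht
    exact (hi t ht.1 _ (Real.sqrt_nonneg _)).trans (hB t ht)
  · have h1 : Tendsto (fun r => 4 * (|c'| * (1 + (t / 2)⁻¹) ^ k) *
        err c S.card (2 * Real.log S.card + 1 + 0) t r) atTop (𝓝 0) := by
      unfold err
      rw [sq_exp hN]
      have h2 := ((tendsto_pow_atTop_nhds_zero_of_lt_one (Real.exp_pos (-(1 + 0))).le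
        (Real.exp_lt_one_iff.2 (by norm_num))).const_mul (2 * c ^ 2 * S.card *
          Real.exp (3 * (2 * Real.log S.card + 1 + 0)) *
          Real.exp (((2 * c * (2 * Real.log S.card + 1 + 0)) ^ 2 + 1) * t / 4))).const_mul
            (4 * (|c'| * (1 + (t / 2)⁻¹) ^ k))
      rwa [mul_zero, mul_zero] at h2
    refine Metric.tendsto_nhds.2 fun η hη => ?_
    obtain ⟨r, hr, hr3⟩ := ((h1.eventually (gt_mem_nhds hη)).and (eventually_ge_atTop 3)).exists
    filter_upwards [key r hr3] with i hi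
    exact (hi t ht 0 le_rfl).trans_lt hr

end Pool.Agent.MP_d9582c_gt.H79
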